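import Pool.Agent.Helper16.AZ.Stmts

/-! # Approximation of bounded square integrable functions by continuous functions -/

namespace Pool.Agent.Helper16.AZ

open Finset Filter MeasureTheory Topology
open scoped ENNReal

/-- radial truncation -/
noncomputable def rtr_rho {F : Type} [NormedAddCommGroup F] [NormedSpace ℝ F] (y : F) : F :=
  (max 1 ‖y‖)⁻¹ • y

theorem rtr_norm {F : Type} [NormedAddCommGroup F] [NormedSpace ℝ F] (y : F) :
    ‖rtr_rho y‖ ≤ 1 := by
  unfold rtr_rho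
  have h1 : 0 < max 1 ‖y‖ := lt_max_of_lt_left one_pos
  rw [norm_smul, norm_inv, Real.norm_of_nonneg h1.le, inv_mul_le_iff₀ h1, mul_one]
  exact le_max_right _ _

theorem rtr_cont {F : Type} [NormedAddCommGroup F] [NormedSpace ℝ F] :
    Continuous (rtr_rho : F → F) := by
  unfold rtr_rho
  refine Continuous.smul (Continuous.inv₀ (by fun_prop) fun y => ?_) continuous_id
  exact (lt_max_of_lt_left one_pos).ne'

theorem rtr_sub {F : Type} [NormedAddCommGroup F] [NormedSpace ℝ F] (y w : F) (hw : ‖w‖ ≤ 1) :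
    ‖rtr_rho y - w‖ ≤ 2 * ‖y - w‖ := by
  have h0 := norm_nonneg (y - w)
  rcases le_total ‖y‖ 1 with hy | hy
  · have : rtr_rho y = y := by
      unfold rtr_rho
      rw [max_eq_left hy, inv_one, one_smul]
    rw [this]
    linarith
  · have hy0 : 0 < ‖y‖ := lt_of_lt_of_le one_pos hy
    have h1 : ‖rtr_rho y - y‖ = ‖y‖ - 1 := by
      unfold rtr_rho
      rw [max_eq_right hy]
      have h2 : ‖y‖⁻¹ • y - y = -((1 - ‖y‖⁻¹) • y) := by
        rw [sub_smul, one_smul]
        abel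
      rw [h2, norm_neg, norm_smul]
      have h3 : 0 ≤ 1 - ‖y‖⁻¹ := by
        have := inv_le_one_of_one_le₀ hy
        linarith
      rw [Real.norm_of_nonneg h3, sub_mul, one_mul, inv_mul_cancel₀ hy0.ne']
    have h2 : ‖rtr_rho y - w‖ ≤ ‖rtr_rho y - y‖ + ‖y - w‖ := norm_sub_le_norm_sub_add_norm_sub _ _ _
    have h3 : ‖y‖ - ‖w‖ ≤ ‖y - w‖ := norm_sub_norm_le _ _
    linarith

theorem st_RTR : ST_RTR := by
  intro r d w ε hε hw
  have hwm : MemLp (w : T r → E d) 2 (mm r) := Lp.memLp w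
  have hε2 : ENNReal.ofReal (ε / 2) ≠ 0 := by
    rw [Ne, ENNReal.ofReal_eq_zero, not_le]
    linarith
  obtain ⟨g, hg, hgm⟩ := hwm.exists_boundedContinuous_eLpNorm_sub_le (by norm_num) hε2
  have hc : Continuous fun θ : T r => rtr_rho (g θ) := rtr_cont.comp g.continuous
  have hcm : MemLp (fun θ : T r => rtr_rho (g θ)) 2 (mm r) :=
    MemLp.of_bound hc.aestronglyMeasurable 1 (Filter.Eventually.of_forall fun θ => rtr_norm _)
  refine ⟨fun θ => rtr_rho (g θ), hcm.toLp _, hc, fun θ => rtr_norm _, hcm.coeFn_toLp, ?_⟩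
  have h1 : ‖hcm.toLp _ - w‖ ≤ 2 * ‖hgm.toLp _ - w‖ := by
    refine Lp.norm_le_mul_norm_of_ae_le_mul ?_
    filter_upwards [hw, Lp.coeFn_sub (hcm.toLp _) w, Lp.coeFn_sub (hgm.toLp _) w,
      hcm.coeFn_toLp, hgm.coeFn_toLp] with θ h1 h2 h3 h4 h5
    rw [h2, h3, Pi.sub_apply, Pi.sub_apply, h4, h5]
    exact rtr_sub _ _ h1
  have h2 : ‖hgm.toLp _ - w‖ ≤ ε / 2 := by
    rw [Lp.norm_def]
    have h3 : eLpNorm ((hgm.toLp _ - w : LL r d) : T r → E d) 2 (mm r)
        = eLpNorm ((w : T r → E d) - (g : T r → E d)) 2 (mm r) := by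
      rw [eLpNorm_sub_comm]
      refine eLpNorm_congr_ae ?_
      filter_upwards [Lp.coeFn_sub (hgm.toLp _) w, hgm.coeFn_toLp] with θ h3 h5
      rw [h3, Pi.sub_apply, Pi.sub_apply, h5]
    rw [h3]
    exact ENNReal.toReal_le_of_le_ofReal (by linarith) hg
  linarith

end Pool.Agent.Helper16.AZ
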